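import Pool.Agent.D0H17.SH.Defs
import Pool.Agent.D0H65.GE.M4

/-! Project SH (helper17), module N3 (helper41): the number of elements of the index sets. -/

set_option autoImplicit false

namespace Pool.Agent.D0H41.SH

open Finset Pool.Agent.D0H17.GE Pool.Agent.D0H17.SH

theorem tel (n : ℕ) (K : ℝ) (p : ℕ → ℝ) : ∀ t : ℕ,
    (∀ i < t, p (i + 1) ^ (n + 2) = K ^ (n + 2) * p i ^ (n + 1)) →
    (∏ i ∈ range (t + 1), p i) * p t ^ (n + 1) = (K ^ (n + 2)) ^ t * p 0 ^ (n + 2) := by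
  intro t
  induction t with
  | zero =>
    intro _
    rw [zero_add, prod_range_one, pow_zero, one_mul]
    ring
  | succ t ih =>
    intro h
    have h1 := ih fun i hi => h i (by omega)
    have h3 := h t (by omega)
    have h2 : p (t + 1) * p (t + 1) ^ (n + 1) = p (t + 1) ^ (n + 2) := by ring
    rw [prod_range_succ, mul_assoc, h2, h3]
    calc (∏ i ∈ range (t + 1), p i) * (K ^ (n + 2) * p t ^ (n + 1)) =
          K ^ (n + 2) * ((∏ i ∈ range (t + 1), p i) * p t ^ (n + 1)) := by ring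
      _ = K ^ (n + 2) * ((K ^ (n + 2)) ^ t * p 0 ^ (n + 2)) := by rw [h1]
      _ = (K ^ (n + 2)) ^ (t + 1) * p 0 ^ (n + 2) := by ring

theorem tel' (n : ℕ) (K : ℝ) (p : ℕ → ℝ) : ∀ t : ℕ,
    (∀ i < t + 1, p (i + 1) ^ (n + 2) = K ^ (n + 2) * p i ^ (n + 1)) →
    (∏ i ∈ range (t + 1), p (i + 1)) * p (t + 1) ^ (n + 1) =
      (K ^ (n + 2)) ^ (t + 1) * p 0 ^ (n + 1) := by
  intro t
  induction t with
  | zero =>
    intro h
    have h3 := h 0 (by omega)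
    rw [zero_add, prod_range_one, pow_one, ← h3]
    ring
  | succ t ih =>
    intro h
    have h1 := ih fun i hi => h i (by omega)
    have h3 := h (t + 1) (by omega)
    have h2 : p (t + 1 + 1) * p (t + 1 + 1) ^ (n + 1) = p (t + 1 + 1) ^ (n + 2) := by ring
    rw [prod_range_succ, mul_assoc, h2, h3]
    calc (∏ i ∈ range (t + 1), p (i + 1)) * (K ^ (n + 2) * p (t + 1) ^ (n + 1)) =
          K ^ (n + 2) * ((∏ i ∈ range (t + 1), p (i + 1)) * p (t + 1) ^ (n + 1)) := by ring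
      _ = K ^ (n + 2) * ((K ^ (n + 2)) ^ (t + 1) * p 0 ^ (n + 1)) := by rw [h1]
      _ = (K ^ (n + 2)) ^ (t + 1 + 1) * p 0 ^ (n + 1) := by ring

/-- N3a -/
theorem card_XS_le (n R t : ℕ) (K : ℝ) (hK : 1 ≤ K) : ∃ C0 : ℝ, 0 < C0 ∧
    ∀ (j : ℕ) (p : ℕ → ℝ), SN 1 K n j t p →
    ((XS R (t + 1) p).card : ℝ) * p t ^ (n + 1) ≤ C0 * p 0 ^ (n + 2) := by
  have hK0 : 0 < K := by linarith
  refine ⟨((R : ℝ) + 1) ^ (t + 1) * (K ^ (n + 2)) ^ t, by positivity, ?_⟩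
  intro j p h
  have hpos : ∀ i ≤ t, 0 < p i := fun i hi => lt_of_lt_of_le one_pos (h.big i hi)
  have h1 : ((XS R (t + 1) p).card : ℝ) ≤ ((R : ℝ) + 1) ^ (t + 1) * ∏ i ∈ range (t + 1), p i := by
    rw [XS, Fintype.card_piFinset]
    push_cast
    rw [← Fin.prod_univ_eq_prod_range (fun i => p i) (t + 1)]
    have h2 : ((R : ℝ) + 1) ^ (t + 1) = ∏ _i : Fin (t + 1), ((R : ℝ) + 1) := by simp
    rw [h2, ← prod_mul_distrib]
    refine prod_le_prod (fun _ _ => Nat.cast_nonneg _) fun i _ => ?_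
    have hi := h.big i (by have := i.2; omega)
    rw [Nat.card_Icc]
    have h3 : ((⌊(R : ℝ) * p i⌋₊ + 1 - ⌈p i⌉₊ : ℕ) : ℝ) ≤ ((⌊(R : ℝ) * p i⌋₊ + 1 : ℕ) : ℝ) := by
      exact_mod_cast Nat.sub_le _ _
    refine h3.trans ?_
    push_cast
    have h4 : (⌊(R : ℝ) * p i⌋₊ : ℝ) ≤ (R : ℝ) * p i := Nat.floor_le (by positivity)
    linarith
  have hP : 0 ≤ p t ^ (n + 1) := pow_nonneg (hpos t le_rfl).le _
  have h5 := tel n K p t h.step
  calc ((XS R (t + 1) p).card : ℝ) * p t ^ (n + 1) ≤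
        (((R : ℝ) + 1) ^ (t + 1) * ∏ i ∈ range (t + 1), p i) * p t ^ (n + 1) :=
        mul_le_mul_of_nonneg_right h1 hP
    _ = ((R : ℝ) + 1) ^ (t + 1) * ((∏ i ∈ range (t + 1), p i) * p t ^ (n + 1)) := by ring
    _ = ((R : ℝ) + 1) ^ (t + 1) * ((K ^ (n + 2)) ^ t * p 0 ^ (n + 2)) := by rw [h5]
    _ = _ := by ring

/-- N3b -/
theorem card_YS_ge (n t : ℕ) (K : ℝ) (hK : 1 ≤ K) : ∃ κ : ℝ, 0 < κ ∧
    ∀ (j H : ℕ) (p : ℕ → ℝ), 1 ≤ H → SN 1 K n j t p →
    (∀ i ≤ t, 32 * (H : ℝ) ≤ p i) →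
      κ * p 0 ^ (n + 2) ≤ ((YS H (t + 1) p).card : ℝ) * p t ^ (n + 1) * (H : ℝ) ^ (t + 1) := by
  refine ⟨(1 / 16 : ℝ) ^ (t + 1), by positivity, ?_⟩
  intro j H p hH h hbig
  have hpos : ∀ i ≤ t, 0 < p i := fun i hi => lt_of_lt_of_le one_pos (h.big i hi)
  have h5 := tel n K p t h.step
  have h1 : (1 / 16 : ℝ) ^ (t + 1) * ∏ i ∈ range (t + 1), p i ≤
      ((YS H (t + 1) p).card : ℝ) * (H : ℝ) ^ (t + 1) := by
    rw [YS, Fintype.card_piFinset]
    push_cast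
    rw [← Fin.prod_univ_eq_prod_range (fun i => p i) (t + 1)]
    have h2 : (1 / 16 : ℝ) ^ (t + 1) = ∏ _i : Fin (t + 1), (1 / 16 : ℝ) := by simp
    have h3 : (H : ℝ) ^ (t + 1) = ∏ _i : Fin (t + 1), (H : ℝ) := by simp
    rw [h2, h3, ← prod_mul_distrib, ← prod_mul_distrib]
    refine prod_le_prod (fun i _ => ?_) fun i _ => ?_
    · have := hpos i (by have := i.2; omega)
      positivity
    · have := Pool.Agent.D0H65.GE.card_mult H hH (p i) (hbig i (by have := i.2; omega))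
      linarith
  have hP : 0 ≤ p t ^ (n + 1) := pow_nonneg (hpos t le_rfl).le _
  have h0 : 0 ≤ p 0 ^ (n + 2) := pow_nonneg (hpos 0 (Nat.zero_le _)).le _
  have hK1 : 1 ≤ (K ^ (n + 2)) ^ t := one_le_pow₀ (one_le_pow₀ hK)
  calc (1 / 16 : ℝ) ^ (t + 1) * p 0 ^ (n + 2) ≤
        (1 / 16 : ℝ) ^ (t + 1) * ((K ^ (n + 2)) ^ t * p 0 ^ (n + 2)) := by
        apply mul_le_mul_of_nonneg_left _ (by positivity)
        nlinarith
    _ = (1 / 16 : ℝ) ^ (t + 1) * ((∏ i ∈ range (t + 1), p i) * p t ^ (n + 1)) := by rw [h5]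
    _ = ((1 / 16 : ℝ) ^ (t + 1) * ∏ i ∈ range (t + 1), p i) * p t ^ (n + 1) := by ring
    _ ≤ (((YS H (t + 1) p).card : ℝ) * (H : ℝ) ^ (t + 1)) * p t ^ (n + 1) :=
        mul_le_mul_of_nonneg_right h1 hP
    _ = _ := by ring

/-- the multiples of `H` between `x / 2` and `x` -/
theorem card_mult2 (H : ℕ) (hH : 1 ≤ H) (x : ℝ) (hx : 4 * (H : ℝ) ≤ x) :
    x / (4 * H) ≤ (((Icc ⌈x / 2⌉₊ ⌊x⌋₊).filter fun n => H ∣ n).card : ℝ) := by
  have hHR : (1 : ℝ) ≤ H := by exact_mod_cast hH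
  have hH0 : (0 : ℝ) < H := by linarith
  have hx0 : 0 ≤ x := by linarith
  have h1 : (Icc ⌈x / (2 * H)⌉₊ ⌊x / H⌋₊).card ≤
      ((Icc ⌈x / 2⌉₊ ⌊x⌋₊).filter fun n => H ∣ n).card := by
    apply card_le_card_of_injOn (fun m => H * m)
    · intro m hm
      rw [coe_Icc, Set.mem_Icc] at hm
      rw [mem_coe, mem_filter, mem_Icc]
      refine ⟨⟨?_, ?_⟩, dvd_mul_right _ _⟩
      · rw [Nat.ceil_le]
        have h2 := Nat.ceil_le.mp hm.1
        rw [div_le_iff₀ (by positivity)] at h2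
        push_cast
        nlinarith
      · rw [Nat.le_floor_iff hx0]
        have h2 := (Nat.le_floor_iff (by positivity)).mp hm.2
        rw [le_div_iff₀ (by positivity)] at h2
        push_cast
        nlinarith
    · intro m _ m' _ h
      exact Nat.eq_of_mul_eq_mul_left (by omega) h
  have h2 : x / (2 * H) - 1 ≤ ((Icc ⌈x / (2 * H)⌉₊ ⌊x / H⌋₊).card : ℝ) := by
    rw [Nat.card_Icc]
    have h3 : x / H < ⌊x / H⌋₊ + 1 := Nat.lt_floor_add_one _
    have h4 : (⌈x / (2 * H)⌉₊ : ℝ) < x / (2 * H) + 1 := Nat.ceil_lt_add_one (by positivity)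
    have h5 : ((⌊x / H⌋₊ + 1 : ℕ) : ℝ) ≤
        ((⌊x / H⌋₊ + 1 - ⌈x / (2 * H)⌉₊ : ℕ) : ℝ) + (⌈x / (2 * H)⌉₊ : ℝ) := by
      exact_mod_cast (by omega)
    push_cast at h5
    have h6 : x / H = 2 * (x / (2 * H)) := by
      field_simp
    linarith
  have h3 : ((Icc ⌈x / (2 * H)⌉₊ ⌊x / H⌋₊).card : ℝ) ≤
      (((Icc ⌈x / 2⌉₊ ⌊x⌋₊).filter fun n => H ∣ n).card : ℝ) := by exact_mod_cast h1
  have h4 : 1 ≤ x / (4 * H) := by
    rw [le_div_iff₀ (by positivity)]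
    linarith
  have h5 : x / (2 * H) = 2 * (x / (4 * H)) := by
    field_simp
    ring
  linarith

/-- N3c -/
theorem card_YY_ge (n t : ℕ) (K e A : ℝ) (hK : 1 ≤ K) (he : 0 < e) (he1 : e ≤ 1) (hA : 1 ≤ A) :
    ∃ κ Λ : ℝ, 0 < κ ∧ ∀ (j : ℕ) (p : ℕ → ℝ), SN Λ K n j (t + 1) p →
      κ * p 0 ^ (n + 1) ≤ ((YY e A (t + 1) p).card : ℝ) * p (t + 1) ^ (n + 1) := by
  have hA0 : 0 < A := by linarith
  refine ⟨(e / (8 * A)) ^ (t + 1), 8 * A / e, by positivity, ?_⟩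
  intro j p h
  have hΛ8 : 8 ≤ 8 * A / e := by
    rw [le_div_iff₀ he]
    nlinarith
  have hpos : ∀ i ≤ t + 1, 0 < p i := fun i hi => by
    have := h.big i hi
    linarith
  have h5 := tel' n K p t h.step
  have hK1 : 1 ≤ (K ^ (n + 2)) ^ (t + 1) := one_le_pow₀ (one_le_pow₀ hK)
  have h1 : (e / (8 * A)) ^ (t + 1) * ∏ i ∈ range (t + 1), p (i + 1) ≤
      ((YY e A (t + 1) p).card : ℝ) := by
    rw [YY, Fintype.card_piFinset]
    push_cast
    rw [← Fin.prod_univ_eq_prod_range (fun i => p (i + 1)) (t + 1)]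
    have h2 : (e / (8 * A)) ^ (t + 1) = ∏ _i : Fin (t + 1), (e / (8 * A)) := by
      rw [prod_const, card_univ, Fintype.card_fin]
    rw [h2, ← prod_mul_distrib]
    refine prod_le_prod (fun i _ => ?_) fun i _ => ?_
    · have := hpos (i + 1) (by have := i.2; omega)
      positivity
    · have hi := i.2
      have hp := hpos i (by omega)
      have hp1 := hpos (i + 1) (by omega)
      have hb1 := h.big (i + 1) (by omega)
      have hg := h.gap i (by omega)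
      have hq : 1 ≤ p i / p (i + 1) := by
        rw [le_div_iff₀ hp1]
        nlinarith
      have hAq : 1 ≤ A * (p i / p (i + 1)) := by nlinarith
      have hceil : (⌈A * (p i / p (i + 1))⌉₊ : ℝ) < A * (p i / p (i + 1)) + 1 :=
        Nat.ceil_lt_add_one (by linarith)
      have hH1 : 1 ≤ ⌈A * (p i / p (i + 1))⌉₊ := Nat.one_le_ceil_iff.2 (by linarith)
      set H : ℕ := ⌈A * (p i / p (i + 1))⌉₊ with hH
      have hHR : (1 : ℝ) ≤ H := by exact_mod_cast hH1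
      have hH2 : (H : ℝ) ≤ 2 * A * (p i / p (i + 1)) := by nlinarith
      have hep : 8 * A ≤ e * p (i + 1) := by
        rw [div_le_iff₀ he] at hb1
        linarith
      have hq' : p i / p (i + 1) * p (i + 1) = p i := by field_simp
      have hx : 4 * (H : ℝ) ≤ e * p i := by
        calc 4 * (H : ℝ) ≤ 8 * A * (p i / p (i + 1)) := by linarith
          _ ≤ e * p (i + 1) * (p i / p (i + 1)) :=
            mul_le_mul_of_nonneg_right hep (by linarith)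
          _ = e * p i := by rw [mul_assoc, mul_comm (p (i + 1)), hq']
      refine le_trans ?_ (card_mult2 H hH1 (e * p i) hx)
      rw [div_mul_eq_mul_div, div_le_div_iff₀ (by positivity) (by positivity)]
      calc e * p (i + 1) * (4 * (H : ℝ)) ≤ e * p (i + 1) * (8 * A * (p i / p (i + 1))) := by
            apply mul_le_mul_of_nonneg_left _ (by positivity)
            linarith
        _ = e * (p i / p (i + 1) * p (i + 1)) * (8 * A) := by ring
        _ = e * p i * (8 * A) := by rw [hq']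
  have hP : 0 ≤ p (t + 1) ^ (n + 1) := pow_nonneg (hpos (t + 1) le_rfl).le _
  have h0 : 0 ≤ p 0 ^ (n + 1) := pow_nonneg (hpos 0 (Nat.zero_le _)).le _
  calc (e / (8 * A)) ^ (t + 1) * p 0 ^ (n + 1) ≤
        (e / (8 * A)) ^ (t + 1) * ((K ^ (n + 2)) ^ (t + 1) * p 0 ^ (n + 1)) := by
        apply mul_le_mul_of_nonneg_left _ (by positivity)
        nlinarith
    _ = (e / (8 * A)) ^ (t + 1) *
        ((∏ i ∈ range (t + 1), p (i + 1)) * p (t + 1) ^ (n + 1)) := by rw [h5]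
    _ = ((e / (8 * A)) ^ (t + 1) * ∏ i ∈ range (t + 1), p (i + 1)) * p (t + 1) ^ (n + 1) := by
        ring
    _ ≤ _ := mul_le_mul_of_nonneg_right h1 hP

end Pool.Agent.D0H41.SH
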