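import Pool.Agent.D0H17.SH.Defs
import Pool.Agent.D0H37.GE.M5

/-! Project SH (helper17), module N4 (helper41): the sums of the third block are separated. -/

set_option autoImplicit false

namespace Pool.Agent.D0H41.SH

open Finset Pool.Agent.D0H17.GE Pool.Agent.D0H17.SH
open Pool.Agent.D0H37.GE (first_diff tail mem_YS dist_dvd)

/-- lower bound for the difference of powers -/
theorem npow_diff_ge {m : ℕ} {lo x x' : ℝ} (hlo : 0 ≤ lo) (hx : lo ≤ x) (hx' : lo ≤ x') :
    lo ^ m * |x - x'| ≤ |x ^ (m + 1) - x' ^ (m + 1)| := by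
  have key : ∀ y y' : ℝ, lo ≤ y' → y' ≤ y → lo ^ m * (y - y') ≤ y ^ (m + 1) - y' ^ (m + 1) := by
    intro y y' h1 h2
    have hy' : 0 ≤ y' := hlo.trans h1
    have hy : 0 ≤ y := hy'.trans h2
    have m1 : lo ^ m ≤ y' ^ m := pow_le_pow_left₀ hlo h1 m
    have m2 : y' ^ m ≤ y ^ m := pow_le_pow_left₀ hy' h2 m
    rw [pow_succ, pow_succ]
    nlinarith [mul_nonneg (sub_nonneg.2 m1) (sub_nonneg.2 h2), mul_nonneg (sub_nonneg.2 m2) hy]
  rcases le_total x' x with h | h
  · rw [abs_of_nonneg (by linarith), abs_of_nonneg]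
    · exact key x x' hx' h
    · have := pow_le_pow_left₀ (hlo.trans hx') h (m + 1); linarith
  · rw [abs_sub_comm, abs_sub_comm (x ^ (m + 1)), abs_of_nonneg (by linarith), abs_of_nonneg]
    · exact key x' x hx h
    · have := pow_le_pow_left₀ (hlo.trans hx) h (m + 1); linarith

/-- upper bound for the difference of powers -/
theorem npow_diff_le {m : ℕ} {hi x x' : ℝ} (h0 : 0 ≤ x) (h0' : 0 ≤ x') (hx : x ≤ hi)
    (hx' : x' ≤ hi) : |x ^ m - x' ^ m| ≤ hi ^ m := by
  have a1 := pow_le_pow_left₀ h0 hx m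
  have a2 := pow_le_pow_left₀ h0' hx' m
  have b1 := pow_nonneg h0 m
  have b2 := pow_nonneg h0' m
  rw [abs_le]; constructor <;> linarith

theorem anti_le {Λ K : ℝ} {n j T : ℕ} {p : ℕ → ℝ} (hΛ : 1 ≤ Λ) (h : SN Λ K n j T p) {a b : ℕ}
    (hab : a ≤ b) (hb : b ≤ T) : p b ≤ p a := by
  induction b, hab using Nat.le_induction with
  | base => exact le_refl _
  | succ m hm ih =>
    refine le_trans ?_ (ih (by omega))
    have h1 := h.gap m (by omega)
    have h2 := h.big (m + 1) hb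
    nlinarith

/-- N4: the sums of the third block are separated -/
theorem sep (n t : ℕ) (K : ℝ) (hK : 1 ≤ K) : ∃ H0 : ℝ, 0 < H0 ∧
    ∀ (j H : ℕ) (p : ℕ → ℝ) (θ : ℝ), H0 ≤ H →
    SN 8 K n j t p → 0 ≤ θ → θ ≤ 1 → ∀ v ∈ YS H (t + 1) p, ∀ v' ∈ YS H (t + 1) p, v ≠ v' →
      1 ≤ |TT (n + 2) θ v - TT (n + 2) θ v'| := by
  have hK0 : 0 < K := by linarith
  refine ⟨8 ^ (n + 1) * (t * K ^ (n + 2) + 1), by positivity, ?_⟩
  intro j H p θ hH hSN hθ hθ1 v hv v' hv' hne
  have hp8 : ∀ i : Fin (t + 1), 8 ≤ p i := fun i => hSN.big i (by omega)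
  have hp0 : ∀ i : Fin (t + 1), 0 ≤ p i := fun i => by linarith [hp8 i]
  obtain ⟨m, hm, hmin⟩ := first_diff v v' hne
  have hv1 := mem_YS hv hp0
  have hv1' := mem_YS hv' hp0
  set f : Fin (t + 1) → ℝ := fun l => ((v l : ℝ) + θ) ^ (n + 2) - ((v' l : ℝ) + θ) ^ (n + 2)
    with hf
  have hS : TT (n + 2) θ v - TT (n + 2) θ v' = ∑ l, f l := by
    simp only [TT, hf, sum_sub_distrib]
  set P : ℝ := p m ^ (n + 1) with hP
  have hP1 : 1 ≤ P := one_le_pow₀ (by linarith [hp8 m])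
  have htail : ∀ l, l ≠ m → |f l| ≤ K ^ (n + 2) * P := by
    intro l hl
    rcases lt_or_gt_of_ne hl with h | h
    · have : f l = 0 := by simp [hf, hmin l h]
      rw [this, abs_zero]; positivity
    · have hml : (m : ℕ) + 1 ≤ l := h
      have hlt : (l : ℕ) ≤ t := by omega
      have g1 := hp8 l
      have h1 : |f l| ≤ (p l) ^ (n + 2) := by
        refine npow_diff_le (by positivity) (by positivity) ?_ ?_
        · have := (hv1 l).2.1
          linarith
        · have := (hv1' l).2.1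
          linarith
      have h2 : (p l) ^ (n + 2) ≤ p (m + 1) ^ (n + 2) :=
        pow_le_pow_left₀ (hp0 l) (anti_le (by norm_num) hSN hml hlt) _
      have h3 := hSN.step m (by omega)
      rw [h3] at h2
      exact h1.trans h2
  have ht := tail f m _ htail
  have hmain : H * (P / 8 ^ (n + 1)) ≤ |f m| := by
    have g1 := hp8 m
    have h1 : (p m / 8) ^ (n + 1) * |((v m : ℝ) + θ) - ((v' m : ℝ) + θ)| ≤ |f m| := by
      refine npow_diff_ge (by linarith) ?_ ?_
      · have := (hv1 m).1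
        linarith
      · have := (hv1' m).1
        linarith
    have h2 := dist_dvd (hv1 m).2.2 (hv1' m).2.2 hm
    have h3 : (p m / 8) ^ (n + 1) = P / 8 ^ (n + 1) := div_pow _ _ _
    have h4 : ((v m : ℝ) + θ) - ((v' m : ℝ) + θ) = (v m : ℝ) - v' m := by ring
    rw [h3, h4] at h1
    have h6 : 0 ≤ P / 8 ^ (n + 1) := by positivity
    calc (H : ℝ) * (P / 8 ^ (n + 1)) ≤ |(v m : ℝ) - v' m| * (P / 8 ^ (n + 1)) :=
          mul_le_mul_of_nonneg_right h2 h6
      _ ≤ |f m| := by rw [mul_comm]; exact h1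
  have h8 : (0:ℝ) < 8 ^ (n + 1) := by positivity
  have hH2 : (t * K ^ (n + 2) + 1) * P ≤ H * (P / 8 ^ (n + 1)) := by
    have : (t * K ^ (n + 2) + 1) * P =
        8 ^ (n + 1) * (t * K ^ (n + 2) + 1) * (P / 8 ^ (n + 1)) := by
      field_simp
    rw [this]
    exact mul_le_mul_of_nonneg_right hH (by positivity)
  rw [hS]
  have : |f m| ≤ |∑ l, f l| + |∑ l, f l - f m| := by
    have := abs_sub (∑ l, f l) (∑ l, f l - f m)
    simpa using this
  have e3 : (t : ℝ) * (K ^ (n + 2) * P) = t * K ^ (n + 2) * P := by ring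
  nlinarith

end Pool.Agent.D0H41.SH
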